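import Pool.Agent.Helper73.F2.St

/-!
# Project F2, module RD1: first reduction
-/

set_option autoImplicit false

namespace Pool.Agent.Helper81.F2

open _root_.F2 Finset

private lemma col_rd1 : ∀ α β x1 x2 : Fin 4, x1 ≠ β → x2 ≠ β → ∃ cv cc cp : Fin 4,
    (cv ≠ cc ∧ cv ≠ cp ∧ cv ≠ α ∧ cc ≠ cp ∧ cc ≠ α ∧ cp ≠ α) ∧ cv ≠ β ∧ cc ≠ β ∧
      cp ≠ x1 ∧ cp ≠ x2 := by
  decide

theorem hRD1 : StRD1 := by
  intro V κ _ _ _ _ G b t q v c hdeg hfour hin htv htc hqv hqc htq hvc hbvc hrest
  classical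
  -- the two other vertices of the block
  obtain ⟨p, d, hpd, hblock⟩ : ∃ p d, p ≠ d ∧
      ((univ.filter (fun w => b w = b v)).erase v).erase c = {p, d} := by
    rw [← Finset.card_eq_two, Finset.card_erase_of_mem, Finset.card_erase_of_mem, hfour]
    · simp
    · exact mem_erase.2 ⟨hvc.symm, mem_filter.2 ⟨mem_univ _, hbvc.symm⟩⟩
  have hmem : ∀ w, (w ≠ c ∧ w ≠ v ∧ b w = b v) ↔ (w = p ∨ w = d) := by
    intro w
    have := Finset.ext_iff.1 hblock w
    simpa using this
  have hp := (hmem p).2 (Or.inl rfl)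
  have hd := (hmem d).2 (Or.inr rfl)
  have hall : ∀ w, b w = b v → w = v ∨ w = c ∨ w = p ∨ w = d := by
    intro w hw
    by_cases h1 : w = v
    · exact Or.inl h1
    by_cases h2 : w = c
    · exact Or.inr (Or.inl h2)
    exact Or.inr (Or.inr ((hmem w).1 ⟨h2, h1, hw⟩))
  -- neighbours
  have ht : ∀ w, G.Adj t w → w = v ∨ w = c := by
    intro w hw
    rcases hdeg t v c w htv htc hw with h | h | h
    · exact absurd h hvc
    · exact Or.inl h.symm
    · exact Or.inr h.symm
  have hq : ∀ w, G.Adj q w → w = v ∨ w = c := by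
    intro w hw
    rcases hdeg q v c w hqv hqc hw with h | h | h
    · exact absurd h hvc
    · exact Or.inl h.symm
    · exact Or.inr h.symm
  have hv : ∀ w, G.Adj v w → w = t ∨ w = q := by
    intro w hw
    rcases hdeg v t q w htv.symm hqv.symm hw with h | h | h
    · exact absurd h htq
    · exact Or.inl h.symm
    · exact Or.inr h.symm
  have hc : ∀ w, G.Adj c w → w = t ∨ w = q := by
    intro w hw
    rcases hdeg c t q w htc.symm hqc.symm hw with h | h | h
    · exact absurd h htq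
    · exact Or.inl h.symm
    · exact Or.inr h.symm
  have htB : ∀ w, b w ≠ b v → ¬ G.Adj t w := by
    intro w hw h
    rcases ht w h with h | h
    · exact hw (by rw [h])
    · exact hw (by rw [h, hbvc])
  have hqB : ∀ w, b w ≠ b v → ¬ G.Adj q w := by
    intro w hw h
    rcases hq w h with h | h
    · exact hw (by rw [h])
    · exact hw (by rw [h, hbvc])
  have htp : ¬ G.Adj p t := by
    intro h
    rcases ht p h.symm with h | h
    · exact hp.2.1 h
    · exact hp.1 h
  have htd : ¬ G.Adj d t := by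
    intro h
    rcases ht d h.symm with h | h
    · exact hd.2.1 h
    · exact hd.1 h
  have hqp : ¬ G.Adj p q := by
    intro h
    rcases hq p h.symm with h | h
    · exact hp.2.1 h
    · exact hp.1 h
  have hqd : ¬ G.Adj d q := by
    intro h
    rcases hq d h.symm with h | h
    · exact hd.2.1 h
    · exact hd.1 h
  have hbt : b t ≠ b v := hin t v htv
  have hbq : b q ≠ b v := hin q v hqv
  -- the graph
  set G' : SimpleGraph V := SimpleGraph.fromRel
    (fun u w => G.Adj u w ∨ (u = t ∧ G.Adj p w) ∨ (u = q ∧ G.Adj d w)) with hG'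
  have hadj : ∀ u w, G'.Adj u w ↔ u ≠ w ∧
      ((G.Adj u w ∨ (u = t ∧ G.Adj p w) ∨ (u = q ∧ G.Adj d w)) ∨
        (G.Adj w u ∨ (w = t ∧ G.Adj p u) ∨ (w = q ∧ G.Adj d u))) := by
    intro u w
    rw [hG', SimpleGraph.fromRel_adj]
  obtain ⟨g, hg1, hg2⟩ := hrest G' (by
    intro x w1 w2 w3 hx hw1 hw2 hw3 h1 h2 h3
    by_cases hxt : x = t
    · subst hxt
      have key : ∀ w, b w ≠ b v → G'.Adj x w → G.Adj p w := by
        intro w hw h
        rcases (hadj _ _).1 h with ⟨hne, (h | ⟨-, h⟩ | ⟨h, -⟩) | (h | ⟨h, -⟩ | ⟨-, h⟩)⟩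
        · exact absurd h (htB w hw)
        · exact h
        · exact absurd h htq
        · exact absurd h.symm (htB w hw)
        · exact absurd h.symm hne
        · exact absurd h htd
      exact hdeg p w1 w2 w3 (key _ hw1 h1) (key _ hw2 h2) (key _ hw3 h3)
    by_cases hxq : x = q
    · subst hxq
      have key : ∀ w, b w ≠ b v → G'.Adj x w → G.Adj d w := by
        intro w hw h
        rcases (hadj _ _).1 h with ⟨hne, (h | ⟨h, -⟩ | ⟨-, h⟩) | (h | ⟨-, h⟩ | ⟨h, -⟩)⟩
        · exact absurd h (hqB w hw)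
        · exact absurd h hxt
        · exact h
        · exact absurd h.symm (hqB w hw)
        · exact absurd h hqp
        · exact absurd h.symm hne
      exact hdeg d w1 w2 w3 (key _ hw1 h1) (key _ hw2 h2) (key _ hw3 h3)
    have key : ∀ w, b w ≠ b v → G'.Adj x w → ∃ n, G.Adj x n ∧
        ((w = t ∧ n = p) ∨ (w = q ∧ n = d) ∨ (n = w)) := by
      intro w hw h
      rcases (hadj _ _).1 h with ⟨hne, (h | ⟨h, -⟩ | ⟨h, -⟩) | (h | ⟨h1, h⟩ | ⟨h1, h⟩)⟩
      · exact ⟨w, h, Or.inr (Or.inr rfl)⟩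
      · exact absurd h hxt
      · exact absurd h hxq
      · exact ⟨w, h.symm, Or.inr (Or.inr rfl)⟩
      · exact ⟨p, h.symm, Or.inl ⟨h1, rfl⟩⟩
      · exact ⟨d, h.symm, Or.inr (Or.inl ⟨h1, rfl⟩)⟩
    have inj : ∀ w w' n, b w ≠ b v → b w' ≠ b v →
        ((w = t ∧ n = p) ∨ (w = q ∧ n = d) ∨ (n = w)) →
        ((w' = t ∧ n = p) ∨ (w' = q ∧ n = d) ∨ (n = w')) → w = w' := by
      rintro w w' n hw hw' (⟨e1, e2⟩ | ⟨e1, e2⟩ | e2) (⟨e3, e4⟩ | ⟨e3, e4⟩ | e4)
      · rw [e1, e3]
      · exact absurd (e2.symm.trans e4) hpd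
      · exact absurd (by rw [← e4, e2]; exact hp.2.2) hw'
      · exact absurd (e4.symm.trans e2) hpd
      · rw [e1, e3]
      · exact absurd (by rw [← e4, e2]; exact hd.2.2) hw'
      · exact absurd (by rw [← e2, e4]; exact hp.2.2) hw
      · exact absurd (by rw [← e2, e4]; exact hd.2.2) hw
      · rw [← e2, ← e4]
    obtain ⟨n1, a1, r1⟩ := key w1 hw1 h1
    obtain ⟨n2, a2, r2⟩ := key w2 hw2 h2
    obtain ⟨n3, a3, r3⟩ := key w3 hw3 h3
    rcases hdeg x n1 n2 n3 a1 a2 a3 with h | h | h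
    · subst h; exact Or.inl (inj _ _ _ hw1 hw2 r1 r2)
    · subst h; exact Or.inr (Or.inl (inj _ _ _ hw1 hw3 r1 r3))
    · subst h; exact Or.inr (Or.inr (inj _ _ _ hw2 hw3 r2 r3)))
  -- colours of the neighbours
  have hpN : ∀ w, G.Adj p w → g w ≠ g t := by
    intro w hw
    have hwB : b w ≠ b v := by
      have := hin p w hw
      rw [hp.2.2] at this
      exact this.symm
    have hwt : t ≠ w := by
      rintro rfl; exact htp hw
    exact (hg1 t w hbt hwB ((hadj _ _).2 ⟨hwt, Or.inl (Or.inr (Or.inl ⟨rfl, hw⟩))⟩)).symm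
  have hdN : ∀ w, G.Adj d w → g w ≠ g q := by
    intro w hw
    have hwB : b w ≠ b v := by
      have := hin d w hw
      rw [hd.2.2] at this
      exact this.symm
    have hwt : q ≠ w := by
      rintro rfl; exact hqd hw
    exact (hg1 q w hbq hwB ((hadj _ _).2 ⟨hwt, Or.inl (Or.inr (Or.inr ⟨rfl, hw⟩))⟩)).symm
  obtain ⟨x1, x2, hx1, hx2, hx⟩ : ∃ x1 x2 : Fin 4, x1 ≠ g t ∧ x2 ≠ g t ∧
      ∀ w, G.Adj p w → g w = x1 ∨ g w = x2 := by
    by_cases h1 : ∃ w1, G.Adj p w1
    · obtain ⟨w1, h1⟩ := h1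
      by_cases h2 : ∃ w2, w2 ≠ w1 ∧ G.Adj p w2
      · obtain ⟨w2, hne, h2⟩ := h2
        refine ⟨g w1, g w2, hpN w1 h1, hpN w2 h2, fun w hw => ?_⟩
        rcases hdeg p w1 w2 w h1 h2 hw with h | h | h
        · exact absurd h.symm hne
        · exact Or.inl (by rw [h])
        · exact Or.inr (by rw [h])
      · push Not at h2
        refine ⟨g w1, g w1, hpN w1 h1, hpN w1 h1, fun w hw => Or.inl ?_⟩
        by_contra hne
        exact h2 w (fun h => hne (by rw [h])) hw
    · push Not at h1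
      have : ∀ β : Fin 4, ∃ x : Fin 4, x ≠ β := by decide
      obtain ⟨x, hx⟩ := this (g t)
      exact ⟨x, x, hx, hx, fun w hw => absurd hw (h1 w)⟩
  obtain ⟨cv, cc, cp, ⟨k1, k2, k3, k4, k5, k6⟩, k7, k8, k9, k10⟩ :=
    col_rd1 (g q) (g t) x1 x2 hx1 hx2
  -- the colouring
  let g' : V → Fin 4 := fun x => if b x = b v then
    (if x = v then cv else if x = c then cc else if x = p then cp else g q) else g x
  have gv : g' v = cv := by simp [g']
  have gc : g' c = cc := by simp [g', hbvc, hvc.symm]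
  have gp : g' p = cp := by simp [g', hp.1, hp.2.1, hp.2.2]
  have gd : g' d = g q := by simp [g', hd.1, hd.2.1, hd.2.2, hpd.symm]
  have gout : ∀ x, b x ≠ b v → g' x = g x := fun x hx => by simp [g', hx]
  have hBadj : ∀ u w, b u = b v → G.Adj u w → g' u ≠ g' w := by
    intro u w hu h
    have hwB : b w ≠ b v := by
      have := hin u w h
      rw [hu] at this
      exact this.symm
    rw [gout w hwB]
    rcases hall u hu with rfl | rfl | rfl | rfl
    · rw [gv]
      rcases hv w h with rfl | rfl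
      · exact k7
      · exact k3
    · rw [gc]
      rcases hc w h with rfl | rfl
      · exact k8
      · exact k5
    · rw [gp]
      rcases hx w h with h | h
      · rw [h]; exact k9
      · rw [h]; exact k10
    · rw [gd]
      exact (hdN w h).symm
  refine ⟨g', ?_, ?_⟩
  · intro u w h
    by_cases hu : b u = b v
    · exact hBadj u w hu h
    by_cases hw : b w = b v
    · exact (hBadj w u hw h.symm).symm
    rw [gout u hu, gout w hw]
    exact hg1 u w hu hw ((hadj _ _).2 ⟨h.ne, Or.inl (Or.inl h)⟩)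
  · intro u w hb he
    by_cases hu : b u = b v
    · have hw : b w = b v := hb ▸ hu
      rcases hall u hu with h1 | h1 | h1 | h1 <;> rcases hall w hw with h2 | h2 | h2 | h2 <;>
        rw [h1, h2] at he ⊢
      · rw [gv, gc] at he; exact absurd he k1
      · rw [gv, gp] at he; exact absurd he k2
      · rw [gv, gd] at he; exact absurd he k3
      · rw [gv, gc] at he; exact absurd he.symm k1
      · rw [gc, gp] at he; exact absurd he k4
      · rw [gc, gd] at he; exact absurd he k5
      · rw [gp, gv] at he; exact absurd he.symm k2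
      · rw [gp, gc] at he; exact absurd he.symm k4
      · rw [gp, gd] at he; exact absurd he k6
      · rw [gd, gv] at he; exact absurd he.symm k3
      · rw [gd, gc] at he; exact absurd he.symm k5
      · rw [gd, gp] at he; exact absurd he.symm k6
    · have hw : b w ≠ b v := hb ▸ hu
      rw [gout u hu, gout w hw] at he
      exact hg2 u w hu hb he

end Pool.Agent.Helper81.F2
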